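import Mathlib

set_option autoImplicit false

namespace Pool.Agent.Results.MP_05142a_co.Rationality

open Relation Finset

/-! ## Definitions -/

section Defs
variable {V : Type*}

/-- `f : V → {0,…,k-1}` is a `(k,q)`-colouring of `G`: the ends `u,v` of every edge satisfy
`q ≤ |f u - f v| ≤ k - q`. -/
def IsCircColoring (G : SimpleGraph V) (k q : ℕ) (f : V → Fin k) : Prop :=
  ∀ u v, G.Adj u v →
    (q : ℤ) ≤ |((f u : ℕ) : ℤ) - ((f v : ℕ) : ℤ)| ∧
      |((f u : ℕ) : ℤ) - ((f v : ℕ) : ℤ)| ≤ (k : ℤ) - (q : ℤ)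

/-- One move: `f` and `g` are both `(k,q)`-colourings and they differ at exactly one vertex. -/
def Move (G : SimpleGraph V) (k q : ℕ) (f g : V → Fin k) : Prop :=
  IsCircColoring G k q f ∧ IsCircColoring G k q g ∧ ∃ x, f x ≠ g x ∧ ∀ v, v ≠ x → f v = g v

/-- `G` is `(k,q)`-mixing: every `(k,q)`-colouring is reachable from any other one by moves. -/
def IsMixing (G : SimpleGraph V) (k q : ℕ) : Prop :=
  ∀ f g : V → Fin k, IsCircColoring G k q f → IsCircColoring G k q g →
    ReflTransGen (Move G k q) f g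

end Defs

/-! ## Difference constraints: potentials and closed walks -/

section Potential
variable {W : Type*} [Fintype W]

open Classical in
/-- Bellman-Ford iteration. -/
noncomputable def bf (R : W → W → Prop) (c : W → W → ℤ) : ℕ → W → ℤ
  | 0 => fun _ => 0
  | (m + 1) => fun v =>
      (Finset.univ : Finset W).inf' ⟨v, Finset.mem_univ v⟩
        (fun u => if R u v then min (bf R c m v) (bf R c m u + c u v) else bf R c m v)

lemma bf_succ_le (R : W → W → Prop) (c : W → W → ℤ) (m : ℕ) (v : W) :
    bf R c (m + 1) v ≤ bf R c m v := by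
  classical
  rw [bf]
  refine (Finset.inf'_le _ (Finset.mem_univ v)).trans ?_
  split_ifs
  · exact min_le_left _ _
  · exact le_rfl

lemma bf_succ_le' (R : W → W → Prop) (c : W → W → ℤ) (m : ℕ) (u v : W) (h : R u v) :
    bf R c (m + 1) v ≤ bf R c m u + c u v := by
  classical
  rw [bf]
  refine (Finset.inf'_le _ (Finset.mem_univ u)).trans ?_
  rw [if_pos h]
  exact min_le_right _ _

lemma bf_antitone (R : W → W → Prop) (c : W → W → ℤ) (v : W) {i j : ℕ} (h : i ≤ j) :
    bf R c j v ≤ bf R c i v := by
  induction h with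
  | refl => exact le_rfl
  | step _ ih => exact (bf_succ_le R c _ v).trans ih

lemma bf_strict (R : W → W → Prop) (c : W → W → ℤ) (m : ℕ) (v : W)
    (h : bf R c (m + 1) v < bf R c m v) :
    ∃ u, R u v ∧ bf R c (m + 1) v = bf R c m u + c u v := by
  classical
  obtain ⟨u, -, hu⟩ := Finset.exists_mem_eq_inf' (s := (Finset.univ : Finset W))
    ⟨v, Finset.mem_univ v⟩
    (fun u => if R u v then min (bf R c m v) (bf R c m u + c u v) else bf R c m v)
  have hu' : bf R c (m + 1) v =
      if R u v then min (bf R c m v) (bf R c m u + c u v) else bf R c m v := by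
    rw [bf]; exact hu
  by_cases hR : R u v
  · refine ⟨u, hR, ?_⟩
    rw [if_pos hR] at hu'
    rcases min_choice (bf R c m v) (bf R c m u + c u v) with h1 | h1
    · rw [h1] at hu'; omega
    · rw [h1] at hu'; exact hu'
  · rw [if_neg hR] at hu'; omega

lemma bf_walk (R : W → W → Prop) (c : W → W → ℤ) (m : ℕ) (v : W)
    (h : bf R c (m + 1) v < bf R c m v) :
    ∃ p : ℕ → W, p (m + 1) = v ∧ ∀ i ≤ m, R (p i) (p (i + 1)) ∧
      bf R c (i + 1) (p (i + 1)) = bf R c i (p i) + c (p i) (p (i + 1)) ∧
      bf R c (i + 1) (p (i + 1)) < bf R c i (p (i + 1)) := by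
  induction m generalizing v with
  | zero =>
    obtain ⟨u, hR, hu⟩ := bf_strict R c 0 v h
    refine ⟨fun i => if i = 0 then u else v, by simp, ?_⟩
    intro i hi
    obtain rfl : i = 0 := by omega
    simp only [if_true, zero_add, one_ne_zero, if_false]
    exact ⟨hR, hu, h⟩
  | succ m ih =>
    obtain ⟨u, hR, hu⟩ := bf_strict R c (m + 1) v h
    have h2 : bf R c (m + 1) u < bf R c m u := by
      have := bf_succ_le' R c m u v hR
      omega
    obtain ⟨p, hp, hp'⟩ := ih u h2
    refine ⟨fun i => if i ≤ m + 1 then p i else v, by simp, ?_⟩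
    intro i hi
    by_cases him : i ≤ m
    · have e1 : i ≤ m + 1 := by omega
      have e2 : i + 1 ≤ m + 1 := by omega
      simp only [e1, e2, if_true]
      exact hp' i him
    · obtain rfl : i = m + 1 := by omega
      have e1 : m + 1 ≤ m + 1 := le_rfl
      have e2 : ¬ (m + 1 + 1 ≤ m + 1) := by omega
      simp only [e1, e2, if_true, if_false]
      rw [hp]
      exact ⟨hR, hu, h⟩

omit [Fintype W] in
/-- Telescoping along a walk. -/
lemma bf_telescope (D : ℕ → W → ℤ) (c : W → W → ℤ) (p : ℕ → W) (i d : ℕ)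
    (h : ∀ l, l < d → D (i + l + 1) (p (i + l + 1)) = D (i + l) (p (i + l)) +
      c (p (i + l)) (p (i + l + 1))) :
    D (i + d) (p (i + d)) = D i (p i) +
      ∑ l ∈ range d, c (p (i + l)) (p (i + l + 1)) := by
  induction d with
  | zero => simp
  | succ d ih =>
    rw [Finset.sum_range_succ, ← add_assoc, h d (by omega),
      ih (fun l hl => h l (by omega))]
    ring

/-- If every closed walk of length at most the number of vertices has non-negative weight, the
system of difference constraints has an integral solution. -/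
theorem exists_potential (R : W → W → Prop) (c : W → W → ℤ)
    (h : ∀ (l : ℕ) (p : ℕ → W), 1 ≤ l → l ≤ Fintype.card W →
      (∀ i < l, R (p i) (p (i + 1))) → p l = p 0 →
      0 ≤ ∑ i ∈ range l, c (p i) (p (i + 1))) :
    ∃ F : W → ℤ, ∀ u v, R u v → F v ≤ F u + c u v := by
  classical
  refine ⟨bf R c (Fintype.card W), fun u v huv => ?_⟩
  by_contra hcon
  have hlt : bf R c (Fintype.card W + 1) v < bf R c (Fintype.card W) v :=
    lt_of_le_of_lt (bf_succ_le' R c _ u v huv) (not_le.1 hcon)
  obtain ⟨p, -, hp⟩ := bf_walk R c _ v hlt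
  have hcard : Fintype.card W < Fintype.card (Fin (Fintype.card W + 1)) := by simp
  obtain ⟨i, j, hij, hpij⟩ := Fintype.exists_ne_map_eq_of_card_lt
    (fun i : Fin (Fintype.card W + 1) => p i) hcard
  wlog hlt' : (i : ℕ) < j generalizing i j
  · refine this j i (Ne.symm hij) hpij.symm ?_
    have : (i : ℕ) ≠ j := fun h => hij (Fin.ext h)
    omega
  obtain ⟨d, hd⟩ : ∃ d, (j : ℕ) = i + d := ⟨j - i, by omega⟩
  have hj := j.2
  have hd1 : 1 ≤ d := by omega
  have tele := bf_telescope (bf R c) c p i d (fun l hl => (hp (i + l) (by omega)).2.1)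
  have hnn := h d (fun l => p (i + l)) hd1 (by omega)
    (fun l hl => (hp (i + l) (by omega)).1)
    (by simp only [add_zero]; rw [← hd]; exact hpij.symm)
  rw [← hd] at tele
  have h1 := (hp (j - 1) (by omega)).2.2
  have e : (j : ℕ) - 1 + 1 = j := by omega
  rw [e] at h1
  have h2 := bf_antitone R c (p j) (show (i : ℕ) ≤ j - 1 by omega)
  rw [← hpij] at h1 h2 tele
  have hnn' : 0 ≤ ∑ l ∈ range d, c (p ((i : ℕ) + l)) (p ((i : ℕ) + l + 1)) := hnn
  omega

/-- Transfer of solvability of a system `F v - F u ≤ k a(u,v) - q` from `(k,q)` to `(k',q')`. -/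
theorem transfer_potential (R : W → W → Prop) (a : W → W → ℤ) (k q k' q' : ℤ)
    (H : ∀ l : ℕ, 1 ≤ l → l ≤ Fintype.card W → ∀ b : ℤ, q * l ≤ k * b → q' * l ≤ k' * b)
    (hF : ∃ F : W → ℤ, ∀ u v, R u v → F v + q ≤ F u + k * a u v) :
    ∃ F : W → ℤ, ∀ u v, R u v → F v + q' ≤ F u + k' * a u v := by
  obtain ⟨F, hF⟩ := hF
  obtain ⟨F', hF'⟩ := exists_potential R (fun u v => k' * a u v - q') (by
    intro l p hl1 hl2 hp hclosed
    have h1 : q * l ≤ k * ∑ i ∈ range l, a (p i) (p (i + 1)) := by
      have h2 : ∑ i ∈ range l, (F (p (i + 1)) - F (p i)) ≤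
          ∑ i ∈ range l, (k * a (p i) (p (i + 1)) - q) := by
        apply Finset.sum_le_sum
        intro i hi
        have := hF _ _ (hp i (Finset.mem_range.1 hi))
        linarith
      rw [Finset.sum_range_sub (fun i => F (p i)), hclosed, Finset.sum_sub_distrib,
        ← Finset.mul_sum] at h2
      simp only [Finset.sum_const, Finset.card_range, nsmul_eq_mul] at h2
      linarith
    have h3 := H l hl1 hl2 _ h1
    rw [Finset.sum_sub_distrib, ← Finset.mul_sum]
    simp only [Finset.sum_const, Finset.card_range, nsmul_eq_mul]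
    linarith)
  refine ⟨F', fun u v huv => ?_⟩
  have := hF' u v huv
  linarith

end Potential

/-! ## Lifted colourings -/

section Lifted
variable {V : Type*}

/-- Lifted `(k,q)`-colourings, with values in `ℤ` (colours modulo `k`). -/
def Lift (G : SimpleGraph V) (k q : ℤ) (F : V → ℤ) : Prop :=
  ∀ u v, G.Adj u v → q ≤ (F u - F v) % k ∧ (F u - F v) % k ≤ k - q

/-- Moves between lifted colourings. -/
def LMove (G : SimpleGraph V) (k q : ℤ) (F F' : V → ℤ) : Prop :=
  Lift G k q F ∧ Lift G k q F' ∧ ∃ x, ∀ v, v ≠ x → F v = F' v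

/-- Connectivity of the set of lifted colourings. -/
def LMixing (G : SimpleGraph V) (k q : ℤ) : Prop :=
  ∀ F F' : V → ℤ, Lift G k q F → Lift G k q F' → ReflTransGen (LMove G k q) F F'

lemma LMove.symm {G : SimpleGraph V} {k q : ℤ} {F F' : V → ℤ} (h : LMove G k q F F') :
    LMove G k q F' F := by
  obtain ⟨h1, h2, x, hx⟩ := h
  exact ⟨h2, h1, x, fun v hv => (hx v hv).symm⟩

lemma reach_symm {G : SimpleGraph V} {k q : ℤ} {F F' : V → ℤ}
    (h : ReflTransGen (LMove G k q) F F') : ReflTransGen (LMove G k q) F' F := by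
  have hs : Std.Symm (LMove G k q) := ⟨fun _ _ h => LMove.symm h⟩
  exact (Relation.ReflTransGen.stdSymm (r := LMove G k q)).symm _ _ h

/-- The cell (integer winding data) of a lifted colouring. -/
def cellOf (k : ℤ) (F : V → ℤ) (u v : V) : ℤ := (F v - F u) / k + 1

/-- The difference constraints of a cell. -/
def InCell (G : SimpleGraph V) (k q : ℤ) (a : V → V → ℤ) (F : V → ℤ) : Prop :=
  ∀ u v, G.Adj u v → F v + q ≤ F u + k * a u v

lemma div_eq_of_bounds {k x w : ℤ} (h1 : k * w ≤ x) (h2 : x < k * w + k) :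
    x / k = w := by
  have hk : 0 < k := by linarith
  rw [Int.ediv_eq_iff_of_pos hk]
  constructor <;> nlinarith

lemma emod_eq_of_bounds {k x w : ℤ} (h1 : k * w ≤ x) (h2 : x < k * w + k) :
    x % k = x - k * w := by
  rw [Int.emod_def, div_eq_of_bounds h1 h2]

/-- Bounds on a difference in a cell. -/
lemma cell_bounds {G : SimpleGraph V} {k q : ℤ} {a : V → V → ℤ} {F : V → ℤ}
    (ha : ∀ u v, G.Adj u v → a u v + a v u = 1) (hF : InCell G k q a F) {u v : V}
    (huv : G.Adj u v) :
    k * (a u v - 1) + q ≤ F v - F u ∧ F v - F u ≤ k * (a u v - 1) + k - q := by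
  have h1 := hF u v huv
  have h2 := hF v u huv.symm
  have h3 : a v u = 1 - a u v := by linarith [ha u v huv]
  rw [h3] at h2
  constructor <;> nlinarith

lemma cellOf_eq {G : SimpleGraph V} {k q : ℤ} (hq : 0 < q) {a : V → V → ℤ} {F : V → ℤ}
    (ha : ∀ u v, G.Adj u v → a u v + a v u = 1) (hF : InCell G k q a F) {u v : V}
    (huv : G.Adj u v) : cellOf k F u v = a u v := by
  obtain ⟨h1, h2⟩ := cell_bounds ha hF huv
  unfold cellOf
  rw [div_eq_of_bounds (w := a u v - 1) (by linarith) (by linarith)]
  ring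

lemma lift_of_inCell {G : SimpleGraph V} {k q : ℤ} (hq : 0 < q) {a : V → V → ℤ} {F : V → ℤ}
    (ha : ∀ u v, G.Adj u v → a u v + a v u = 1) (hF : InCell G k q a F) : Lift G k q F := by
  intro u v huv
  obtain ⟨h1, h2⟩ := cell_bounds ha hF huv.symm
  rw [emod_eq_of_bounds (w := a v u - 1) (by linarith) (by linarith)]
  constructor <;> linarith

lemma inCell_cellOf {G : SimpleGraph V} {k q : ℤ} {F : V → ℤ}
    (hF : Lift G k q F) : InCell G k q (cellOf k F) F := by
  intro u v huv
  obtain ⟨h1, h2⟩ := hF v u huv.symm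
  unfold cellOf
  have := Int.emod_def (F v - F u) k
  nlinarith

lemma cellOf_add {G : SimpleGraph V} {k q : ℤ} (hq : 0 < q) {F : V → ℤ}
    (hF : Lift G k q F) (u v : V) (huv : G.Adj u v) : cellOf k F u v + cellOf k F v u = 1 := by
  obtain ⟨h1, h2⟩ := hF v u huv.symm
  unfold cellOf
  have h3 := Int.emod_def (F v - F u) k
  have h4 : (F u - F v) / k = - ((F v - F u) / k) - 1 := by
    apply div_eq_of_bounds
    · nlinarith
    · nlinarith
  rw [h4]; ring

/-- A sequence in a finite set repeats within the first `card + 1` steps. -/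
lemma exists_repeat [Fintype V] (p : ℕ → V) :
    ∃ i d : ℕ, 1 ≤ d ∧ d ≤ Fintype.card V ∧ p (i + d) = p i := by
  have hcard : Fintype.card V < Fintype.card (Fin (Fintype.card V + 1)) := by simp
  obtain ⟨i, j, hij, hpij⟩ := Fintype.exists_ne_map_eq_of_card_lt
    (fun i : Fin (Fintype.card V + 1) => p i) hcard
  have hi := i.2
  have hj := j.2
  rcases lt_or_gt_of_ne (fun h => hij (Fin.ext h) : (i : ℕ) ≠ j) with h | h
  · exact ⟨i, j - i, by omega, by omega, by rw [hpij]; congr 1; omega⟩
  · exact ⟨j, i - j, by omega, by omega, by rw [← hpij]; congr 1; omega⟩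

/-- The one-step raise inside a cell. -/
lemma exists_raise [Fintype V] {G : SimpleGraph V} {k q : ℤ} {a : V → V → ℤ}
    (hnt : ∀ l : ℕ, 1 ≤ l → l ≤ Fintype.card V → ∀ b : ℤ, q * l ≠ k * b)
    {F F' : V → ℤ} (hF : InCell G k q a F) (hF' : InCell G k q a F')
    (hne : ∃ v, F v < F' v) :
    ∃ x, F x < F' x ∧ ∀ u, G.Adj u x → F x + 1 + q ≤ F u + k * a u x := by
  classical
  by_contra hcon
  push Not at hcon
  obtain ⟨v0, hv0⟩ := hne
  choose! φ hφ1 hφ2 using hcon
  have hstep : ∀ v, F v < F' v → F (φ v) < F' (φ v) ∧ F v + q = F (φ v) + k * a (φ v) v := by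
    intro v hv
    have h1 := hφ1 v hv
    have h2 := hφ2 v hv
    have h3 := hF _ _ h1
    have h4 := hF' _ _ h1
    have h5 : F v + q = F (φ v) + k * a (φ v) v := by omega
    exact ⟨by omega, h5⟩
  have hiter : ∀ i : ℕ, F (φ^[i] v0) < F' (φ^[i] v0) := by
    intro i
    induction i with
    | zero => simpa using hv0
    | succ i ih =>
      rw [Function.iterate_succ_apply']
      exact (hstep _ ih).1
  obtain ⟨i, d, hd1, hd2, hrep⟩ := exists_repeat (fun i => φ^[i] v0)
  have htele : ∀ d : ℕ, F (φ^[i] v0) + q * d = F (φ^[i + d] v0) +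
      k * ∑ l ∈ range d, a (φ^[i + l + 1] v0) (φ^[i + l] v0) := by
    intro d
    induction d with
    | zero => simp
    | succ d ih =>
      have h1 := (hstep _ (hiter (i + d))).2
      rw [← Function.iterate_succ_apply' φ] at h1
      rw [Finset.sum_range_succ, mul_add, ← add_assoc i d 1]
      have e : (i + d).succ = i + d + 1 := rfl
      rw [e] at h1
      push_cast
      linarith
  have h := htele d
  rw [hrep] at h
  exact hnt d hd1 hd2 _ (by linarith)

/-- Two points `F ≤ F'` of a cell are joined by moves if there are no tight cycles. -/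
lemma reach_of_le [Fintype V] {G : SimpleGraph V} {k q : ℤ} (hq : 0 < q) {a : V → V → ℤ}
    (ha : ∀ u v, G.Adj u v → a u v + a v u = 1)
    (hnt : ∀ l : ℕ, 1 ≤ l → l ≤ Fintype.card V → ∀ b : ℤ, q * l ≠ k * b)
    (N : ℕ) : ∀ {F F' : V → ℤ}, InCell G k q a F → InCell G k q a F' → (∀ v, F v ≤ F' v) →
    (∑ v, (F' v - F v) ≤ N) → ReflTransGen (LMove G k q) F F' := by
  classical
  induction N with
  | zero =>
    intro F F' hF hF' hle hN
    have h0 : ∀ v ∈ (Finset.univ : Finset V), 0 ≤ F' v - F v := fun v _ => by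
      linarith [hle v]
    have h1 : ∑ v, (F' v - F v) = 0 := le_antisymm (by simpa using hN) (Finset.sum_nonneg h0)
    have h2 := (Finset.sum_eq_zero_iff_of_nonneg h0).1 h1
    have : F = F' := by
      funext v
      have := h2 v (Finset.mem_univ v)
      linarith
    rw [this]
  | succ N ih =>
    intro F F' hF hF' hle hN
    by_cases hne : ∃ v, F v < F' v
    · obtain ⟨x, hx, hx'⟩ := exists_raise hnt hF hF' hne
      set F1 : V → ℤ := Function.update F x (F x + 1) with hF1
      have hcell : InCell G k q a F1 := by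
        intro u v huv
        have huv' := hF u v huv
        by_cases hvx : v = x
        · subst hvx
          have hne' : u ≠ v := huv.ne
          rw [hF1, Function.update_self, Function.update_of_ne hne']
          exact hx' u huv
        · rw [hF1, Function.update_of_ne hvx]
          by_cases hux : u = x
          · subst hux
            rw [Function.update_self]; linarith
          · rw [Function.update_of_ne hux]; exact huv'
      have hmove : LMove G k q F F1 :=
        ⟨lift_of_inCell hq ha hF, lift_of_inCell hq ha hcell, x, fun v hv => by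
          rw [hF1, Function.update_of_ne hv]⟩
      refine ReflTransGen.head hmove (ih hcell hF' ?_ ?_)
      · intro v
        by_cases hvx : v = x
        · subst hvx; rw [hF1, Function.update_self]; omega
        · rw [hF1, Function.update_of_ne hvx]; exact hle v
      · have hsum : ∑ v, (F' v - F1 v) = ∑ v, (F' v - F v) - 1 := by
          have : ∀ v, F' v - F1 v = (F' v - F v) - (if v = x then 1 else 0) := by
            intro v
            by_cases hvx : v = x
            · subst hvx; rw [hF1, Function.update_self]; simp; ring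
            · rw [hF1, Function.update_of_ne hvx]; simp [hvx]
          rw [Finset.sum_congr rfl (fun v _ => this v), Finset.sum_sub_distrib]
          simp
        rw [hsum]
        push_cast at hN
        linarith
    · push Not at hne
      have : F = F' := by
        funext v
        exact le_antisymm (hle v) (hne v)
      rw [this]

/-- Any two points of a cell are joined by moves if there are no tight cycles. -/
lemma cell_connected [Fintype V] {G : SimpleGraph V} {k q : ℤ} (hq : 0 < q) {a : V → V → ℤ}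
    (ha : ∀ u v, G.Adj u v → a u v + a v u = 1)
    (hnt : ∀ l : ℕ, 1 ≤ l → l ≤ Fintype.card V → ∀ b : ℤ, q * l ≠ k * b)
    {F F' : V → ℤ} (hF : InCell G k q a F) (hF' : InCell G k q a F') :
    ReflTransGen (LMove G k q) F F' := by
  have hmin : InCell G k q a (fun v => min (F v) (F' v)) := by
    intro u v huv
    have h1 := hF u v huv
    have h2 := hF' u v huv
    simp only
    rcases min_choice (F u) (F' u) with h | h
    · rw [h]; have := min_le_left (F v) (F' v); linarith
    · rw [h]; have := min_le_right (F v) (F' v); linarith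
  have h1 : ReflTransGen (LMove G k q) (fun v => min (F v) (F' v)) F :=
    reach_of_le hq ha hnt (∑ v, (F v - min (F v) (F' v))).toNat hmin hF
      (fun v => min_le_left _ _) (by exact Int.self_le_toNat _)
  have h2 : ReflTransGen (LMove G k q) (fun v => min (F v) (F' v)) F' :=
    reach_of_le hq ha hnt (∑ v, (F' v - min (F v) (F' v))).toNat hmin hF'
      (fun v => min_le_right _ _) (by exact Int.self_le_toNat _)
  exact (reach_symm h1).trans h2

/-- Doubling the vertex `x`: the adjacency relation. -/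
def dblR (G : SimpleGraph V) (x : V) : Option V → Option V → Prop
  | some u, some v => G.Adj u v
  | none, some v => G.Adj x v
  | some u, none => G.Adj u x
  | none, none => False

/-- Doubling the vertex `x`: the winding data. -/
def dblA (a a' : V → V → ℤ) (x : V) : Option V → Option V → ℤ
  | some u, some v => a u v
  | none, some v => a' x v
  | some u, none => a' u x
  | none, none => 0

/-- Transfer of lifted mixing. -/
theorem transfer_mixing [Fintype V] {G : SimpleGraph V} {k q k' q' : ℤ}
    (hq : 0 < q) (hq' : 0 < q')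
    (H1 : ∀ l : ℕ, 1 ≤ l → l ≤ Fintype.card V + 1 → ∀ b : ℤ, q * l ≤ k * b → q' * l ≤ k' * b)
    (H2 : ∀ l : ℕ, 1 ≤ l → l ≤ Fintype.card V + 1 → ∀ b : ℤ, q' * l ≤ k' * b → q * l ≤ k * b)
    (hnt : ∀ l : ℕ, 1 ≤ l → l ≤ Fintype.card V → ∀ b : ℤ, q * l ≠ k * b)
    (hmix : LMixing G k' q') : LMixing G k q := by
  classical
  intro F0 F1 hF0 hF1
  have hcell : ∀ {F : V → ℤ}, Lift G k q F →
      ∃ F' : V → ℤ, InCell G k' q' (cellOf k F) F' := by
    intro F hF
    exact transfer_potential (fun u v => G.Adj u v) (cellOf k F) k q k' q'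
      (fun l h1 h2 => H1 l h1 (by omega)) ⟨F, inCell_cellOf hF⟩
  obtain ⟨K0, hK0⟩ := hcell hF0
  obtain ⟨K1, hK1⟩ := hcell hF1
  have hLK0 : Lift G k' q' K0 := lift_of_inCell hq' (cellOf_add hq hF0) hK0
  have hLK1 : Lift G k' q' K1 := lift_of_inCell hq' (cellOf_add hq hF1) hK1
  have main : ∀ {K : V → ℤ}, ReflTransGen (LMove G k' q') K0 K → Lift G k' q' K →
      ∀ F : V → ℤ, InCell G k q (cellOf k' K) F → ReflTransGen (LMove G k q) F0 F := by
    intro K hK
    induction hK with
    | refl =>
      intro _ F hF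
      have hF' : InCell G k q (cellOf k F0) F := by
        intro u v huv
        have := hF u v huv
        rwa [cellOf_eq hq' (cellOf_add hq hF0) hK0 huv] at this
      exact cell_connected hq (cellOf_add hq hF0) hnt (inCell_cellOf hF0) hF'
    | @tail K K' hKK hmove ih =>
      intro _ F hF
      obtain ⟨hLK, hLK', x, hx⟩ := hmove
      have hcellK : InCell G k' q' (cellOf k' K) K := inCell_cellOf hLK
      have hcellK' : InCell G k' q' (cellOf k' K') K' := inCell_cellOf hLK'
      obtain ⟨Φ, hΦ⟩ := transfer_potential (dblR G x) (dblA (cellOf k' K) (cellOf k' K') x)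
        k' q' k q (fun l h1 h2 => H2 l h1 (by simpa using h2))
        ⟨fun o => o.elim (K' x) K, by
          intro u v huv
          match u, v, huv with
          | some u, some v, huv => exact hcellK u v huv
          | none, some v, huv =>
            have hv : v ≠ x := huv.ne'
            have := hcellK' x v huv
            simp only [Option.elim, dblA]
            rw [hx v hv]; exact this
          | some u, none, huv =>
            have hu : u ≠ x := huv.ne
            have := hcellK' u x huv
            simp only [Option.elim, dblA]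
            rw [hx u hu]; exact this⟩
      have hFa : InCell G k q (cellOf k' K) (fun v => Φ (some v)) :=
        fun u v huv => hΦ (some u) (some v) huv
      have hcc : ∀ u v, u ≠ x → v ≠ x → cellOf k' K u v = cellOf k' K' u v := by
        intro u v hu hv
        unfold cellOf
        rw [hx u hu, hx v hv]
      have hFb : InCell G k q (cellOf k' K')
          (Function.update (fun v => Φ (some v)) x (Φ none)) := by
        intro u v huv
        by_cases hux : u = x
        · subst hux
          have hv : v ≠ u := huv.ne'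
          rw [Function.update_self, Function.update_of_ne hv]
          exact hΦ none (some v) huv
        · by_cases hvx : v = x
          · subst hvx
            rw [Function.update_self, Function.update_of_ne hux]
            exact hΦ (some u) none huv
          · rw [Function.update_of_ne hvx, Function.update_of_ne hux]
            have := hΦ (some u) (some v) huv
            simp only [dblA] at this
            rw [hcc u v hux hvx] at this
            exact this
      have s1 := ih hLK _ hFa
      have s2 : LMove G k q (fun v => Φ (some v))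
          (Function.update (fun v => Φ (some v)) x (Φ none)) :=
        ⟨lift_of_inCell hq (cellOf_add hq' hLK) hFa,
          lift_of_inCell hq (cellOf_add hq' hLK') hFb, x,
          fun v hv => by rw [Function.update_of_ne hv]⟩
      have s3 := cell_connected hq (cellOf_add hq' hLK') hnt hFb hF
      exact (s1.tail s2).trans s3
  refine main (hmix K0 K1 hLK0 hLK1) hLK1 F1 ?_
  intro u v huv
  rw [cellOf_eq hq' (cellOf_add hq hF1) hK1 huv]
  exact inCell_cellOf hF1 u v huv

/-- Transfer of the existence of a lifted colouring. -/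
theorem transfer_exists [Fintype V] {G : SimpleGraph V} {k q k' q' : ℤ}
    (hq : 0 < q) (hq' : 0 < q')
    (H1 : ∀ l : ℕ, 1 ≤ l → l ≤ Fintype.card V + 1 → ∀ b : ℤ, q * l ≤ k * b → q' * l ≤ k' * b)
    (h : ∃ F : V → ℤ, Lift G k q F) : ∃ F : V → ℤ, Lift G k' q' F := by
  obtain ⟨F, hF⟩ := h
  obtain ⟨F', hF'⟩ := transfer_potential (fun u v => G.Adj u v) (cellOf k F) k q k' q'
      (fun l h1 h2 => H1 l h1 (by omega)) ⟨F, inCell_cellOf hF⟩
  exact ⟨F', lift_of_inCell hq' (cellOf_add hq hF) hF'⟩

end Lifted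

/-! ## Colourings versus lifted colourings -/

section Compare
variable {V : Type*}

/-- A colouring seen as a lifted colouring. -/
def up {k : ℕ} (f : V → Fin k) (v : V) : ℤ := ((f v : ℕ) : ℤ)

/-- Reduction modulo `k`. -/
def down {k : ℕ} (hk : 0 < k) (F : V → ℤ) (v : V) : Fin k :=
  ⟨(F v % (k : ℤ)).toNat, by
    have h1 := Int.emod_nonneg (F v) (show (k : ℤ) ≠ 0 by omega)
    have h2 := Int.emod_lt_of_pos (F v) (show (0 : ℤ) < k by omega)
    omega⟩

lemma up_down {k : ℕ} (hk : 0 < k) (F : V → ℤ) (v : V) : up (down hk F) v = F v % k := by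
  have h1 := Int.emod_nonneg (F v) (show (k : ℤ) ≠ 0 by omega)
  simp only [up, down]
  omega

lemma down_up {k : ℕ} (hk : 0 < k) (f : V → Fin k) : down hk (up f) = f := by
  funext v
  apply Fin.ext
  have h1 : (0 : ℤ) ≤ up f v := by simp [up]
  have h2 : up f v < k := by
    have := (f v).2
    simp only [up]; omega
  have h3 : up f v % (k : ℤ) = up f v := Int.emod_eq_of_lt h1 h2
  simp only [down]
  rw [h3]
  simp [up]

lemma isCirc_iff_lift {G : SimpleGraph V} {k q : ℕ} (_hq : 0 < q) (f : V → Fin k) :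
    IsCircColoring G k q f ↔ Lift G k q (up f) := by
  unfold IsCircColoring Lift
  refine forall_congr' fun u => forall_congr' fun v => forall_congr' fun _ => ?_
  have hu := (f u).2
  have hv := (f v).2
  simp only [up]
  generalize hx : ((f u : ℕ) : ℤ) - ((f v : ℕ) : ℤ) = x
  have h1 : -(k : ℤ) < x := by omega
  have h2 : x < k := by omega
  rcases lt_or_ge x 0 with h | h
  · have e : x % (k : ℤ) = x + k := by
      rw [emod_eq_of_bounds (w := -1) (by linarith) (by linarith)]; ring
    rw [e, abs_of_neg h]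
    constructor
    · rintro ⟨h3, h4⟩; constructor <;> linarith
    · rintro ⟨h3, h4⟩; constructor <;> linarith
  · rw [Int.emod_eq_of_lt h h2, abs_of_nonneg h]

lemma lift_down {G : SimpleGraph V} {k q : ℕ} (hk : 0 < k) {F : V → ℤ}
    (hF : Lift G k q F) : Lift G k q (up (down hk F)) := by
  intro u v huv
  rw [up_down, up_down, Int.emod_sub_emod, Int.sub_emod_emod]
  exact hF u v huv

lemma move_symm {G : SimpleGraph V} {k q : ℕ} {f g : V → Fin k} (h : Move G k q f g) :
    Move G k q g f := by
  obtain ⟨h1, h2, x, hx, hx'⟩ := h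
  exact ⟨h2, h1, x, hx.symm, fun v hv => (hx' v hv).symm⟩

lemma mreach_symm {G : SimpleGraph V} {k q : ℕ} {f g : V → Fin k}
    (h : ReflTransGen (Move G k q) f g) : ReflTransGen (Move G k q) g f := by
  have hs : Std.Symm (Move G k q) := ⟨fun _ _ h => move_symm h⟩
  exact (Relation.ReflTransGen.stdSymm (r := Move G k q)).symm _ _ h

lemma isMixing_of_lMixing {G : SimpleGraph V} {k q : ℕ} (hk : 0 < k) (hq : 0 < q)
    (h : LMixing G k q) : IsMixing G k q := by
  intro f g hf hg
  have hpath := h (up f) (up g) ((isCirc_iff_lift hq f).1 hf) ((isCirc_iff_lift hq g).1 hg)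
  have key : ∀ {F : V → ℤ}, ReflTransGen (LMove G k q) (up f) F →
      ReflTransGen (Move G k q) f (down hk F) := by
    intro F hF
    induction hF with
    | refl => rw [down_up]
    | @tail K K' _ hmove ih =>
      obtain ⟨h1, h2, x, hx⟩ := hmove
      have hoff : ∀ v, v ≠ x → down hk K v = down hk K' v := by
        intro v hv
        simp only [down, hx v hv]
      by_cases hxx : down hk K x = down hk K' x
      · have : down hk K = down hk K' := by
          funext v
          by_cases hv : v = x
          · rw [hv]; exact hxx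
          · exact hoff v hv
        rw [← this]; exact ih
      · exact ih.tail ⟨(isCirc_iff_lift hq _).2 (lift_down hk h1),
          (isCirc_iff_lift hq _).2 (lift_down hk h2), x, hxx, hoff⟩
  have := key hpath
  rwa [down_up] at this

lemma lMixing_of_isMixing [Fintype V] {G : SimpleGraph V} {k q : ℕ} (hk : 0 < k) (hq : 0 < q)
    (h : IsMixing G k q) : LMixing G k q := by
  classical
  have hred : ∀ F : V → ℤ, Lift G k q F → ReflTransGen (LMove G k q) F (up (down hk F)) := by
    intro F hF
    have key : ∀ S : Finset V,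
        ReflTransGen (LMove G k q) F (fun v => if v ∈ S then F v % k else F v) := by
      intro S
      induction S using Finset.induction_on with
      | empty => simp only [Finset.notMem_empty, if_false]; exact ReflTransGen.refl
      | @insert x S hx ih =>
        refine ih.tail ?_
        have hl : ∀ T : Finset V, Lift G k q (fun v => if v ∈ T then F v % k else F v) := by
          intro T u v huv
          have : ((if u ∈ T then F u % (k : ℤ) else F u) -
              (if v ∈ T then F v % (k : ℤ) else F v)) % (k : ℤ) = (F u - F v) % k := by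
            split_ifs <;> simp [Int.emod_sub_emod, Int.sub_emod_emod]
          simp only
          rw [this]
          exact hF u v huv
        refine ⟨hl S, hl (insert x S), x, fun v hv => ?_⟩
        simp [Finset.mem_insert, hv]
    have h2 := key Finset.univ
    simp only [Finset.mem_univ, if_true] at h2
    have h3 : (fun v => F v % (k : ℤ)) = up (down hk F) := by
      funext v; rw [up_down]
    rwa [h3] at h2
  have hup : ∀ {f g : V → Fin k}, ReflTransGen (Move G k q) f g →
      ReflTransGen (LMove G k q) (up f) (up g) := by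
    intro f g hfg
    induction hfg with
    | refl => exact ReflTransGen.refl
    | tail _ hmove ih =>
      obtain ⟨h1, h2, x, -, hx⟩ := hmove
      exact ih.tail ⟨(isCirc_iff_lift hq _).1 h1, (isCirc_iff_lift hq _).1 h2, x,
        fun v hv => by simp only [up, hx v hv]⟩
  intro F F' hF hF'
  have h1 := hred F hF
  have h2 := hred F' hF'
  have h3 := hup (h (down hk F) (down hk F') ((isCirc_iff_lift hq _).2 (lift_down hk hF))
    ((isCirc_iff_lift hq _).2 (lift_down hk hF')))
  exact (h1.trans h3).trans (reach_symm h2)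

lemma isCirc_one_iff {G : SimpleGraph V} {k : ℕ} (f : V → Fin k) :
    IsCircColoring G k 1 f ↔ ∀ u v, G.Adj u v → f u ≠ f v := by
  unfold IsCircColoring
  refine forall_congr' fun u => forall_congr' fun v => forall_congr' fun _ => ?_
  have hu := (f u).2
  have hv := (f v).2
  rw [Ne, Fin.ext_iff]
  constructor
  · rintro ⟨h1, -⟩ h2
    rw [h2] at h1
    simp at h1
  · intro h
    rcases lt_or_gt_of_ne h with h | h
    · rw [abs_of_neg (by omega)]; omega
    · rw [abs_of_pos (by omega)]; omega

/-- Classical mixing for many colours. -/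
theorem isMixing_large [Fintype V] (G : SimpleGraph V) (k : ℕ) (hk : 3 * Fintype.card V ≤ k) :
    IsMixing G k 1 := by
  classical
  have key : ∀ (f h : V → Fin k), IsCircColoring G k 1 f → Function.Injective h →
      (∀ u v, f u ≠ h v) → ReflTransGen (Move G k 1) f h := by
    intro f h hf hinj hfh
    have hcol : ∀ S : Finset V, IsCircColoring G k 1 (fun v => if v ∈ S then h v else f v) := by
      intro S
      rw [isCirc_one_iff] at hf ⊢
      intro u v huv
      split_ifs
      · exact fun he => huv.ne (hinj he)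
      · exact (hfh v u).symm
      · exact hfh u v
      · exact hf u v huv
    have step : ∀ S : Finset V,
        ReflTransGen (Move G k 1) f (fun v => if v ∈ S then h v else f v) := by
      intro S
      induction S using Finset.induction_on with
      | empty => simp only [Finset.notMem_empty, if_false]; exact ReflTransGen.refl
      | @insert x S hx ih =>
        refine ih.tail ⟨hcol S, hcol (insert x S), x, ?_, fun v hv => ?_⟩
        · simp only [hx, if_false, Finset.mem_insert_self, if_true]
          exact hfh x x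
        · simp [Finset.mem_insert, hv]
    have := step Finset.univ
    simpa using this
  intro f g hf hg
  have hcard : Fintype.card V ≤ Fintype.card
      {c : Fin k // c ∉ (Finset.univ.image f ∪ Finset.univ.image g)} := by
    rw [Fintype.card_subtype_compl, Fintype.card_fin, Fintype.card_coe]
    have h1 := Finset.card_union_le (Finset.univ.image f) (Finset.univ.image g)
    have h2 : (Finset.univ.image f).card ≤ Fintype.card V := Finset.card_image_le
    have h3 : (Finset.univ.image g).card ≤ Fintype.card V := Finset.card_image_le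
    omega
  obtain ⟨e⟩ := Function.Embedding.nonempty_of_card_le hcard
  set h : V → Fin k := fun v => (e v).1 with hh
  have hinj : Function.Injective h := fun u v huv => e.injective (Subtype.ext huv)
  have hf' : ∀ u v, f u ≠ h v := by
    intro u v huv
    have := (e v).2
    apply this
    rw [Finset.mem_union]
    left
    rw [Finset.mem_image]
    exact ⟨u, Finset.mem_univ u, huv⟩
  have hg' : ∀ u v, g u ≠ h v := by
    intro u v huv
    have := (e v).2
    apply this
    rw [Finset.mem_union]
    right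
    rw [Finset.mem_image]
    exact ⟨u, Finset.mem_univ u, huv⟩
  exact (key f h hf hinj hf').trans (mreach_symm (key g h hg hinj hg'))

/-- Existence of a colouring for many colours. -/
theorem exists_large [Fintype V] (G : SimpleGraph V) (k : ℕ) (hk : Fintype.card V ≤ k) :
    ∃ f : V → Fin k, IsCircColoring G k 1 f := by
  have : Fintype.card V ≤ Fintype.card (Fin k) := by simpa using hk
  obtain ⟨e⟩ := Function.Embedding.nonempty_of_card_le this
  exact ⟨e, (isCirc_one_iff _).2 fun u v huv h => huv.ne (e.injective h)⟩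

end Compare

/-! ## From pairs `(k,q)` to the threshold -/

/-- The admissible levels of a property `P` of pairs `(k,q)`: the positive rationals `ℓ` such that
`P k q` holds for all positive integers `k,q` with `k/q ≥ ℓ` (seen as real numbers). -/
def levels (P : ℕ → ℕ → Prop) : Set ℝ :=
  {x | ∃ l : ℚ, 0 < l ∧ (l : ℝ) = x ∧
    ∀ k q : ℕ, 0 < k → 0 < q → (l : ℝ) ≤ (k : ℝ) / (q : ℝ) → P k q}

lemma conv_le (k q : ℕ) (hk : 0 < k) (hq : 0 < q) (l : ℕ) (b : ℤ) :
    (q : ℤ) * l ≤ k * b ↔ (l : ℝ) / ((k : ℝ) / q) ≤ b := by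
  have hk' : (0 : ℝ) < k := by exact_mod_cast hk
  have hq' : (0 : ℝ) < q := by exact_mod_cast hq
  rw [div_le_iff₀ (by positivity), ← mul_div_assoc, le_div_iff₀ hq']
  constructor
  · intro h
    have h' : ((q : ℤ) : ℝ) * ((l : ℤ) : ℝ) ≤ ((k : ℤ) : ℝ) * (b : ℝ) := by exact_mod_cast h
    push_cast at h'
    linarith
  · intro h
    have h' : ((q : ℤ) : ℝ) * ((l : ℤ) : ℝ) ≤ ((k : ℤ) : ℝ) * (b : ℝ) := by
      push_cast; linarith
    exact_mod_cast h'

/-- The abstract threshold lemma. -/
theorem glb_levels (P : ℕ → ℕ → Prop) (N : ℕ)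
    (hT : ∀ k q k' q' : ℕ, 0 < k → 0 < q → 0 < k' → 0 < q' →
      (∀ l : ℕ, 1 ≤ l → l ≤ N → ∀ b : ℤ, (q : ℤ) * l ≤ k * b → (q' : ℤ) * l ≤ k' * b) →
      (∀ l : ℕ, 1 ≤ l → l ≤ N → ∀ b : ℤ, (q' : ℤ) * l ≤ k' * b → (q : ℤ) * l ≤ k * b) →
      (∀ l : ℕ, 1 ≤ l → l ≤ N → ∀ b : ℤ, (q : ℤ) * l ≠ k * b) → P k' q' → P k q)
    (hK : ∃ K0 : ℕ, ∀ K, K0 ≤ K → P K 1) :
    (levels P).Nonempty ∧
      ∃ a b : ℕ, 0 < b ∧ a ≤ N ∧ IsGLB (levels P) ((a : ℝ) / (b : ℝ)) := by
  classical
  obtain ⟨K0, hK0⟩ := hK
  have hne : (levels P).Nonempty := by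
    refine ⟨((N + 1 : ℕ) : ℝ), ((N + 1 : ℕ) : ℚ), by positivity, by push_cast; rfl, ?_⟩
    intro k q hk hq hkq
    have hq' : (0 : ℝ) < q := by exact_mod_cast hq
    have hkq' : (N + 1) * q ≤ k := by
      rw [le_div_iff₀ hq'] at hkq
      exact_mod_cast hkq
    have hkq2 : ((N : ℤ) + 1) * q ≤ k := by exact_mod_cast hkq'
    have hk2 : (0 : ℤ) < k := by exact_mod_cast hk
    have hq2 : (0 : ℤ) < q := by exact_mod_cast hq
    refine hT k q (max K0 (N + 1)) 1 hk hq (by positivity) one_pos ?_ ?_ ?_
      (hK0 _ (le_max_left _ _))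
    · intro l hl1 hl2 b hb
      have hb1 : 0 < b := by
        have : (0 : ℤ) < k * b := lt_of_lt_of_le (by positivity) hb
        exact (mul_pos_iff_of_pos_left hk2).1 this
      have h1 : ((N : ℤ) + 1) ≤ (max K0 (N + 1) : ℕ) := by
        exact_mod_cast le_max_right K0 (N + 1)
      have h2 : (l : ℤ) ≤ N := by exact_mod_cast hl2
      push_cast at h1 ⊢
      nlinarith
    · intro l hl1 hl2 b hb
      have hb1 : 0 < b := by
        have h0 : (0 : ℤ) < (max K0 (N + 1) : ℕ) := by positivity
        have : (0 : ℤ) < (max K0 (N + 1) : ℕ) * b := lt_of_lt_of_le (by positivity) hb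
        exact (mul_pos_iff_of_pos_left h0).1 this
      have h2 : (l : ℤ) ≤ N := by exact_mod_cast hl2
      have h3 : (q : ℤ) * l ≤ q * N := mul_le_mul_of_nonneg_left h2 hq2.le
      nlinarith
    · intro l hl1 hl2 b hb
      have hb1 : 0 < b := by
        have : (0 : ℤ) < k * b := lt_of_lt_of_le (by positivity) hb.le
        exact (mul_pos_iff_of_pos_left hk2).1 this
      have h2 : (l : ℤ) ≤ N := by exact_mod_cast hl2
      have h3 : (q : ℤ) * l ≤ q * N := mul_le_mul_of_nonneg_left h2 hq2.le
      nlinarith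
  refine ⟨hne, ?_⟩
  have hbdd : BddBelow (levels P) := by
    refine ⟨0, ?_⟩
    rintro x ⟨l, hl, rfl, -⟩
    exact_mod_cast hl.le
  have hM := isGLB_csInf hne hbdd
  set M := sInf (levels P) with hMdef
  have hM0 : 0 ≤ M := by
    apply le_csInf hne
    rintro x ⟨l, hl, rfl, -⟩
    exact_mod_cast hl.le
  by_contra hcon
  push Not at hcon
  have hMpos : 0 < M := by
    rcases hM0.lt_or_eq with h | h
    · exact h
    · exfalso
      apply hcon 0 1 one_pos (Nat.zero_le _)
      simpa [← h] using hM
  have hnint : ∀ l : ℕ, 1 ≤ l → l ≤ N → ∀ b : ℤ, (l : ℝ) / M ≠ b := by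
    intro l hl1 hl2 b hb
    have hl0 : (0 : ℝ) < l := by exact_mod_cast hl1
    have hb0 : (0 : ℝ) < b := by rw [← hb]; positivity
    have hb1 : 0 < b := by exact_mod_cast hb0
    obtain ⟨b', rfl⟩ := Int.eq_ofNat_of_zero_le hb1.le
    apply hcon l b' (by exact_mod_cast hb1) hl2
    have : (l : ℝ) / (b' : ℝ) = M := by
      rw [div_eq_iff hMpos.ne'] at hb
      push_cast at hb hb0
      rw [div_eq_iff hb0.ne', hb]
      ring
    rw [this]
    exact hM
  have hev : ∀ᶠ m in nhds M, ∀ l ∈ Finset.Icc 1 N,
      ((⌈(l : ℝ) / M⌉ : ℝ) - 1 < (l : ℝ) / m ∧ (l : ℝ) / m < ⌈(l : ℝ) / M⌉) := by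
    rw [Filter.eventually_all_finset]
    intro l hl
    rw [Finset.mem_Icc] at hl
    have hcont : Filter.Tendsto (fun m : ℝ => (l : ℝ) / m) (nhds M) (nhds ((l : ℝ) / M)) :=
      (continuousAt_const.div continuousAt_id hMpos.ne')
    have h1 : ((⌈(l : ℝ) / M⌉ : ℝ) - 1) < (l : ℝ) / M := by
      have := Int.ceil_lt_add_one ((l : ℝ) / M)
      linarith
    have h2 : (l : ℝ) / M < ⌈(l : ℝ) / M⌉ :=
      lt_of_le_of_ne (Int.le_ceil _) (hnint l hl.1 hl.2 _)
    exact (hcont.eventually_const_lt h1).and (hcont.eventually_lt_const h2)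
  obtain ⟨ε, hε, hball⟩ := Metric.eventually_nhds_iff.1 hev
  -- a good pair slightly above `M`
  obtain ⟨s, hs, hsM⟩ : ∃ s ∈ levels P, s < M + ε := by
    by_contra hno
    push Not at hno
    have := hM.2 hno
    linarith
  have hsM' : M ≤ s := hM.1 hs
  obtain ⟨l1, hl1, rfl, hl1P⟩ := hs
  have hgood : ∃ k' q' : ℕ, 0 < k' ∧ 0 < q' ∧ (k' : ℝ) / q' = l1 ∧ P k' q' := by
    refine ⟨l1.num.toNat, l1.den, ?_, l1.den_pos, ?_, ?_⟩
    · have := Rat.num_pos.2 hl1
      omega
    · have h1 : ((l1.num.toNat : ℕ) : ℝ) = ((l1.num : ℤ) : ℝ) := by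
        have := (Rat.num_pos.2 hl1).le
        have h2 : ((l1.num.toNat : ℕ) : ℤ) = l1.num := Int.toNat_of_nonneg this
        exact_mod_cast h2
      rw [h1]
      exact (Rat.cast_def l1).symm
    · apply hl1P
      · have := Rat.num_pos.2 hl1
        omega
      · exact l1.den_pos
      · have h1 : ((l1.num.toNat : ℕ) : ℝ) = ((l1.num : ℤ) : ℝ) := by
          have := (Rat.num_pos.2 hl1).le
          have h2 : ((l1.num.toNat : ℕ) : ℤ) = l1.num := Int.toNat_of_nonneg this
          exact_mod_cast h2
        rw [h1]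
        exact (Rat.cast_def l1).le
  obtain ⟨k', q', hk', hq', hkq', hP'⟩ := hgood
  -- a bad pair slightly below `M`
  obtain ⟨l0, hl0a, hl0b⟩ := exists_rat_btwn (show max (M - ε) 0 < M from
    max_lt (by linarith) hMpos)
  have hl0pos : (0 : ℝ) < l0 := lt_of_le_of_lt (le_max_right _ _) hl0a
  have hl0ε : M - ε < (l0 : ℝ) := lt_of_le_of_lt (le_max_left _ _) hl0a
  have hbad : ∃ k q : ℕ, 0 < k ∧ 0 < q ∧ (l0 : ℝ) ≤ (k : ℝ) / q ∧ ¬ P k q := by
    by_contra hno
    push Not at hno
    have : (l0 : ℝ) ∈ levels P :=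
      ⟨l0, by exact_mod_cast hl0pos, rfl, fun k q hk hq h => hno k q hk hq h⟩
    have := hM.1 this
    linarith
  obtain ⟨k, q, hk, hq, hkq, hP⟩ := hbad
  have hkqM : (k : ℝ) / q ≤ M := by
    by_contra hgt
    push Not at hgt
    obtain ⟨s, hs, hsk⟩ : ∃ s ∈ levels P, s < (k : ℝ) / q := by
      by_contra hno
      push Not at hno
      have := hM.2 hno
      linarith
    obtain ⟨l2, -, rfl, hl2P⟩ := hs
    exact hP (hl2P k q hk hq hsk.le)
  have hm := hball (y := (k : ℝ) / q) (by
    rw [Real.dist_eq, abs_lt]; constructor <;> linarith)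
  have hm' := hball (y := (k' : ℝ) / q') (by
    rw [Real.dist_eq, abs_lt, hkq']; constructor <;> linarith)
  apply hP
  have key : ∀ (x y : ℝ) (l : ℕ) (b : ℤ),
      ((⌈(l : ℝ) / M⌉ : ℝ) - 1 < x ∧ x < ⌈(l : ℝ) / M⌉) →
      ((⌈(l : ℝ) / M⌉ : ℝ) - 1 < y ∧ y < ⌈(l : ℝ) / M⌉) → x ≤ b → y ≤ b := by
    intro x y l b hx hy hxb
    have h1 : ((⌈(l : ℝ) / M⌉ : ℝ) - 1) < b := lt_of_lt_of_le hx.1 hxb
    have h2 : ⌈(l : ℝ) / M⌉ - 1 < b := by exact_mod_cast h1
    have h3 : ⌈(l : ℝ) / M⌉ ≤ b := by omega
    have h4 : (⌈(l : ℝ) / M⌉ : ℝ) ≤ b := by exact_mod_cast h3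
    linarith [hy.2]
  refine hT k q k' q' hk hq hk' hq' ?_ ?_ ?_ hP'
  · intro l hl1 hl2 b hb
    rw [conv_le k q hk hq] at hb
    rw [conv_le k' q' hk' hq']
    have hl : l ∈ Finset.Icc 1 N := Finset.mem_Icc.2 ⟨hl1, hl2⟩
    exact key _ _ l b (hm l hl) (hm' l hl) hb
  · intro l hl1 hl2 b hb
    rw [conv_le k' q' hk' hq'] at hb
    rw [conv_le k q hk hq]
    have hl : l ∈ Finset.Icc 1 N := Finset.mem_Icc.2 ⟨hl1, hl2⟩
    exact key _ _ l b (hm' l hl) (hm l hl) hb
  · intro l hl1 hl2 b hb
    have hl : l ∈ Finset.Icc 1 N := Finset.mem_Icc.2 ⟨hl1, hl2⟩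
    obtain ⟨h1, h2⟩ := hm l hl
    have hk0 : (0 : ℝ) < k := by exact_mod_cast hk
    have hq0 : (0 : ℝ) < q := by exact_mod_cast hq
    have hb' : (l : ℝ) / ((k : ℝ) / q) = b := by
      have hb2 : ((q : ℤ) : ℝ) * ((l : ℤ) : ℝ) = ((k : ℤ) : ℝ) * (b : ℝ) := by exact_mod_cast hb
      push_cast at hb2
      field_simp
      linarith
    rw [hb'] at h1 h2
    have h3 : ⌈(l : ℝ) / M⌉ - 1 < b := by exact_mod_cast h1
    have h4 : b < ⌈(l : ℝ) / M⌉ := by exact_mod_cast h2
    omega

/-- The circular mixing threshold `𝔐_c(G)`: the infimum of the (positive) rationals `ℓ` such that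
`G` is `(k,q)`-mixing for all positive integers `k,q` with `k/q ≥ ℓ`. -/
noncomputable def circularMixingThreshold {V : Type*} (G : SimpleGraph V) : ℝ :=
  sInf (levels (IsMixing G))

/-- Variant of `IsMixing` which in addition asks for the existence of a `(k,q)`-colouring. -/
def IsMixing' {V : Type*} (G : SimpleGraph V) (k q : ℕ) : Prop :=
  (∃ f : V → Fin k, IsCircColoring G k q f) ∧ IsMixing G k q

/-- The threshold for the variant `IsMixing'`. -/
noncomputable def circularMixingThreshold' {V : Type*} (G : SimpleGraph V) : ℝ :=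
  sInf (levels (IsMixing' G))

lemma levels_bddBelow (P : ℕ → ℕ → Prop) : BddBelow (levels P) := by
  refine ⟨0, ?_⟩
  rintro x ⟨l, hl, rfl, -⟩
  exact_mod_cast hl.le

/-- Transfer of mixing between two pairs whose ratios lie in the same open interval between
consecutive fractions with numerator at most `|V| + 1`. -/
lemma isMixing_transfer {V : Type*} [Fintype V] (G : SimpleGraph V)
    (k q k' q' : ℕ) (hk : 0 < k) (hq : 0 < q) (hk' : 0 < k') (hq' : 0 < q')
    (H1 : ∀ l : ℕ, 1 ≤ l → l ≤ Fintype.card V + 1 → ∀ b : ℤ,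
      (q : ℤ) * l ≤ k * b → (q' : ℤ) * l ≤ k' * b)
    (H2 : ∀ l : ℕ, 1 ≤ l → l ≤ Fintype.card V + 1 → ∀ b : ℤ,
      (q' : ℤ) * l ≤ k' * b → (q : ℤ) * l ≤ k * b)
    (H3 : ∀ l : ℕ, 1 ≤ l → l ≤ Fintype.card V + 1 → ∀ b : ℤ, (q : ℤ) * l ≠ k * b)
    (hP : IsMixing G k' q') : IsMixing G k q :=
  isMixing_of_lMixing hk hq
    (transfer_mixing (by exact_mod_cast hq) (by exact_mod_cast hq') H1 H2
      (fun l h1 h2 => H3 l h1 (by omega)) (lMixing_of_isMixing hk' hq' hP))

lemma exists_transfer {V : Type*} [Fintype V] (G : SimpleGraph V)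
    (k q k' q' : ℕ) (hk : 0 < k) (hq : 0 < q) (hq' : 0 < q')
    (H2 : ∀ l : ℕ, 1 ≤ l → l ≤ Fintype.card V + 1 → ∀ b : ℤ,
      (q' : ℤ) * l ≤ k' * b → (q : ℤ) * l ≤ k * b)
    (hP : ∃ f : V → Fin k', IsCircColoring G k' q' f) :
    ∃ f : V → Fin k, IsCircColoring G k q f := by
  obtain ⟨f, hf⟩ := hP
  obtain ⟨F, hF⟩ := transfer_exists (G := G) (k := k') (q := q') (k' := k) (q' := q)
    (by exact_mod_cast hq') (by exact_mod_cast hq) H2 ⟨up f, (isCirc_iff_lift hq' f).1 hf⟩
  exact ⟨down hk F, (isCirc_iff_lift hq _).2 (lift_down hk hF)⟩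

/-- **Rationality of the circular mixing threshold.**  For every finite simple graph `G` on `n`
vertices the circular mixing threshold is a rational number `a/b` with `a ≤ n + 1`; the same holds
if `(k,q)`-mixing is also required to include the existence of a `(k,q)`-colouring. -/
theorem result {V : Type*} [Fintype V] (G : SimpleGraph V) :
    ((levels (IsMixing G)).Nonempty ∧
      ∃ a b : ℕ, 0 < b ∧ a ≤ Fintype.card V + 1 ∧
        circularMixingThreshold G = (a : ℝ) / (b : ℝ)) ∧
    ((levels (IsMixing' G)).Nonempty ∧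
      ∃ a b : ℕ, 0 < b ∧ a ≤ Fintype.card V + 1 ∧
        circularMixingThreshold' G = (a : ℝ) / (b : ℝ)) := by
  constructor
  · obtain ⟨hne, a, b, hb, ha, hglb⟩ := glb_levels (IsMixing G) (Fintype.card V + 1)
      (fun k q k' q' hk hq hk' hq' H1 H2 H3 hP =>
        isMixing_transfer G k q k' q' hk hq hk' hq' H1 H2 H3 hP)
      ⟨3 * Fintype.card V, fun K hK => isMixing_large G K hK⟩
    exact ⟨hne, a, b, hb, ha, (isGLB_csInf hne (levels_bddBelow _)).unique hglb⟩
  · obtain ⟨hne, a, b, hb, ha, hglb⟩ := glb_levels (IsMixing' G) (Fintype.card V + 1)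
      (fun k q k' q' hk hq hk' hq' H1 H2 H3 hP =>
        ⟨exists_transfer G k q k' q' hk hq hq' H2 hP.1,
          isMixing_transfer G k q k' q' hk hq hk' hq' H1 H2 H3 hP.2⟩)
      ⟨3 * Fintype.card V, fun K hK => ⟨exists_large G K (by omega), isMixing_large G K hK⟩⟩
    exact ⟨hne, a, b, hb, ha, (isGLB_csInf hne (levels_bddBelow _)).unique hglb⟩

end Pool.Agent.Results.MP_05142a_co.Rationality
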